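import Pool.Agent.helper60.DB.SpecF

/-!
# Row TT: the truncated sum as a combination of two squares modulo `p²`
-/

namespace Pool.Agent.helper60.DB

open Polynomial Finset Pool.Agent.helper60.DK

/-- Legendre's formula, homogeneous form -/
theorem TT_aux1 (hLG : LG_stmt) (R : Type) [CommRing R] [IsDomain R] [CharZero R] (A B U V : R)
    (y w : PowerSeries R) (hB : B ≠ 0) (hy : Yy A B y) (hw : w * y = 1)
    (h : (A ^ 2 - 4 * B) * V = -16 * B * U) (m : ℕ) :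
    V ^ m * PowerSeries.coeff m w ^ 2 = B ^ m * Kc m U V := by
  have h1 := hLG R A B y w hB hy.sq hy.one hw m
  have h16 : (16 : R) ^ m ≠ 0 := pow_ne_zero _ (by norm_num)
  apply mul_left_cancel₀ h16
  have h2 : (16 : R) ^ m * (V ^ m * PowerSeries.coeff m w ^ 2) =
      V ^ m * ∑ k ∈ range (m + 1), ((cc m k : ℤ) : R) * (A ^ 2 - 4 * B) ^ k * (16 * B) ^ (m - k) := by
    rw [← h1]
    ring
  rw [h2]
  unfold Kc
  rw [Finset.mul_sum, Finset.mul_sum, Finset.mul_sum]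
  apply Finset.sum_congr rfl
  intro k hk
  have hkm : k ≤ m := by
    rw [Finset.mem_range] at hk
    omega
  have e1 : V ^ m = V ^ k * V ^ (m - k) := by
    rw [← pow_add]
    congr 1
    omega
  have e2 : (16 : R) ^ m * B ^ m = (16 * B) ^ k * (16 * B) ^ (m - k) := by
    rw [← mul_pow, ← pow_add]
    congr 1
    omega
  calc V ^ m * (((cc m k : ℤ) : R) * (A ^ 2 - 4 * B) ^ k * (16 * B) ^ (m - k))
      = ((cc m k : ℤ) : R) * ((A ^ 2 - 4 * B) * V) ^ k * V ^ (m - k) * (16 * B) ^ (m - k) := by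
        rw [e1, mul_pow (A ^ 2 - 4 * B) V k]
        ring
    _ = ((cc m k : ℤ) : R) * ((16 * B) * (-U)) ^ k * V ^ (m - k) * (16 * B) ^ (m - k) := by
        rw [h]
        congr 3
        ring
    _ = ((16 : R) ^ m * B ^ m) * (((cc m k : ℤ) : R) * (-U) ^ k * V ^ (m - k)) := by
        rw [e2, mul_pow (16 * B) (-U) k]
        ring
    _ = (16 : R) ^ m * (B ^ m * (((cc m k : ℤ) : R) * (-U) ^ k * V ^ (m - k))) := by
        ring

theorem TT (hIE : IE_stmt) (hLG : LG_stmt) : TT_stmt := by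
  intro p _ hp R _ _ _ s x A1 A2 B y1 w1 y2 w2 hx hu hB h1 h2 hy1 hw1 hy2 hw2
  obtain ⟨z, hz⟩ := hIE p hp R s x hx
  have e1 := TT_aux1 hLG R A1 B ((s - 1) * (s + 1) ^ 3) ((s + 2) * (s - 2) ^ 3) y1 w1 hB hy1 hw1
    h1 (hh p)
  have e2 := TT_aux1 hLG R A2 B ((-s - 1) * (-s + 1) ^ 3) ((-s + 2) * (-s - 2) ^ 3) y2 w2 hB hy2
    hw2 h2 (hh p)
  have hpm : p = 2 * hh p + 1 := by
    have h3 : p % 2 = 1 := by
      rcases (Fact.out : p.Prime).eq_two_or_odd with h | h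
      · omega
      · exact h
    unfold hh
    omega
  obtain ⟨v, hv⟩ := hu.exists_right_inv
  generalize hm : hh p = m at *
  have e3 : (s + 2) ^ p * ((s + 2) * (s - 2) ^ 3) ^ m =
      (-1) ^ m * (4 - s ^ 2) ^ (3 * m) * (s + 2) := by
    have : (-1 : R) ^ m * (4 - s ^ 2) ^ (3 * m) = ((s + 2) * (s - 2)) ^ (3 * m) := by
      have h4 : (-1 : R) ^ m = (-1) ^ (3 * m) := by
        rw [pow_mul]
        norm_num
      rw [h4, ← mul_pow]
      congr 1
      ring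
    rw [this, hpm]
    have h5 : ((s + 2) * (s - 2)) ^ (3 * m) = (s + 2) ^ (2 * m) * (s + 2) ^ m * ((s - 2) ^ 3) ^ m := by
      rw [mul_pow, ← pow_add, ← pow_mul]
      congr 2
      ring
    rw [h5, mul_pow]
    ring
  have e4 : (2 - s) ^ p * ((-s + 2) * (-s - 2) ^ 3) ^ m =
      (-1) ^ m * (4 - s ^ 2) ^ (3 * m) * (2 - s) := by
    have : (-1 : R) ^ m * (4 - s ^ 2) ^ (3 * m) = ((2 - s) * (-s - 2)) ^ (3 * m) := by
      have h4 : (-1 : R) ^ m = (-1) ^ (3 * m) := by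
        rw [pow_mul]
        norm_num
      rw [h4, ← mul_pow]
      congr 1
      ring
    rw [this, hpm]
    have h5 : ((2 - s) * (-s - 2)) ^ (3 * m) =
        (2 - s) ^ (2 * m) * (2 - s) ^ m * ((-s - 2) ^ 3) ^ m := by
      rw [mul_pow, ← pow_add, ← pow_mul]
      congr 2
      ring
    have h6 : -s + 2 = 2 - s := by ring
    rw [h5, h6, mul_pow]
    ring
  have hone : ((-1 : R) ^ m * (4 - s ^ 2) ^ (3 * m)) * ((-1) ^ m * v ^ (3 * m)) = 1 := by
    have h7 : (-1 : R) ^ m * (-1) ^ m = 1 := by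
      rw [← mul_pow]
      norm_num
    have h8 : (4 - s ^ 2) ^ (3 * m) * v ^ (3 * m) = 1 := by
      rw [← mul_pow, hv, one_pow]
    calc ((-1 : R) ^ m * (4 - s ^ 2) ^ (3 * m)) * ((-1) ^ m * v ^ (3 * m))
        = ((-1 : R) ^ m * (-1) ^ m) * ((4 - s ^ 2) ^ (3 * m) * v ^ (3 * m)) := by ring
      _ = 1 := by rw [h7, h8, one_mul]
  refine ⟨((-1) ^ m * v ^ (3 * m)) * (B ^ m * z), ?_⟩
  set c : R := (-1 : R) ^ m * (4 - s ^ 2) ^ (3 * m) with hc
  set c' : R := (-1 : R) ^ m * v ^ (3 * m) with hc'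
  have key : c * (4 * B ^ m * aeval x (DA.St p)) = c * ((2 + s) * PowerSeries.coeff m w1 ^ 2
      + (2 - s) * PowerSeries.coeff m w2 ^ 2) + (p : R) ^ 2 * (B ^ m * z) := by
    have h9 : c * (4 * B ^ m * aeval x (DA.St p)) =
        B ^ m * (4 * (-1) ^ m * (4 - s ^ 2) ^ (3 * m) * aeval x (DA.St p)) := by
      rw [hc]
      ring
    rw [h9, hz]
    have h10 : B ^ m * ((s + 2) ^ p * Kc m ((s - 1) * (s + 1) ^ 3) ((s + 2) * (s - 2) ^ 3)) =
        c * (s + 2) * PowerSeries.coeff m w1 ^ 2 := by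
      rw [← e3]
      linear_combination (-(s + 2) ^ p) * e1
    have h11 : B ^ m * ((2 - s) ^ p * Kc m ((-s - 1) * (-s + 1) ^ 3) ((-s + 2) * (-s - 2) ^ 3)) =
        c * (2 - s) * PowerSeries.coeff m w2 ^ 2 := by
      rw [← e4]
      linear_combination (-(2 - s) ^ p) * e2
    linear_combination h10 + h11
  linear_combination c' * key - (4 * B ^ m * aeval x (DA.St p)) * hone +
    ((2 + s) * PowerSeries.coeff m w1 ^ 2 + (2 - s) * PowerSeries.coeff m w2 ^ 2) * hone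

end Pool.Agent.helper60.DB
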